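import Pool.Agent.J4H73.GQ.Rsv
import Pool.Agent.R463.EI2

set_option autoImplicit false

/-! # Project GQ (helper81): S_KAP (helper73; the position of the interval: helper463) -/

namespace Pool.Agent.J4H73.GQ

theorem t_KAP : Pool.Agent.J4H81.GQ.S_KAP := kap2 t_RSV Pool.Agent.R463.EI.start

end Pool.Agent.J4H73.GQ
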