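import Pool.Agent.J4H81.GQ.Stm

set_option autoImplicit false

/-!
# Project GQ (helper81): Rankin's choice with protected end points and few survivors, second part

From Rankin's covering with protected positions (`S_RSV`) and the choice of the position of the interval (`S_START`).
-/

namespace Pool.Agent.J4H73.GQ

open Finset Filter Pool.Agent.J4H81.GQ

open Classical in
/-- the theorem `rsurv` of `Pool.Agent.R463.EI1`, for `H ≤ y (log y) ^ (A + 2)` -/
def S_RSV : Prop := ∀ A K : ℕ, ∃ C : ℝ, 0 < C ∧ ∃ y₀ : ℕ, ∀ y : ℕ, y₀ ≤ y → ∀ (S : Finset ℕ) (ps : ℕ),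
    (∀ q ∈ S, q.Prime ∧ 2 < q) → ∑ q ∈ S, (1 : ℝ) / q ≤ 12 / (Real.log y) ^ 2 →
    (ps = 1 ∨ (ps.Prime ∧ 2 < ps)) → ∀ H : ℕ, y ≤ H → (H : ℝ) ≤ y * (Real.log y) ^ (A + 2) →
    ∀ t : Fin K → ℕ, (∀ j, (∀ p : ℕ, p.Prime → p ≤ y → p ∉ S → p ≠ ps → ¬ p ∣ t j) ∧ t j ≤ H) →
    ∃ b : ℕ → ℕ, (∀ p : ℕ, p.Prime → p ≤ y → p ∉ S → p ≠ ps → b p < p ∧ ∀ j, ¬ t j ≡ b p [MOD p]) ∧
      (((range (H + 1)).filter (fun k => (∀ j, k ≠ t j) ∧ ∀ p : ℕ, p.Prime → p ≤ y → p ∉ S → p ≠ ps →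
        ¬ k ≡ b p [MOD p])).card : ℝ) ≤
      C * H * (Real.log (Real.log y)) ^ 2 /
        ((Real.log y) ^ 2 * Real.log (Real.log (Real.log y)))

/-- the theorem `start` of `Pool.Agent.R463.EI2` -/
def S_START : Prop := ∃ y0 : ℕ, ∀ y : ℕ, y0 ≤ y → ∀ h : ℕ, 2 ∣ h → 0 < h → ∃ c0 : ℕ, 1 ≤ c0 ∧ c0 ≤ y ∧
    ∀ p : ℕ, p.Prime → (p : ℝ) ≤ Real.log y ^ 3 → ¬ p ∣ c0 ∧ ¬ p ∣ c0 + h

/-- few large prime factors -/
theorem few_primes (S : Finset ℕ) (n : ℕ) (hn : 0 < n) (L : ℝ) (hL : 0 < L)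
    (h : ∀ q ∈ S, q.Prime ∧ q ∣ n ∧ L < (q : ℝ)) : (S.card : ℝ) * Real.log L ≤ Real.log n := by
  have h1 : ∏ q ∈ S, q ∣ n := by
    apply Finset.prod_primes_dvd
    · intro q hq
      exact (h q hq).1.prime
    · intro q hq
      exact (h q hq).2.1
  have h2 : ((∏ q ∈ S, q : ℕ) : ℝ) ≤ n := by
    exact_mod_cast Nat.le_of_dvd hn h1
  have h3 : L ^ S.card ≤ ∏ q ∈ S, (q : ℝ) := by
    rw [← Finset.prod_const]
    exact Finset.prod_le_prod (fun _ _ => hL.le) fun q hq => (h q hq).2.2.le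
  have h4 : L ^ S.card ≤ n := by
    refine h3.trans ?_
    rw [← Nat.cast_prod]
    exact h2
  have h5 := Real.log_le_log (by positivity) h4
  rwa [Real.log_pow] at h5

theorem ev_big (A : ℕ) : ∀ᶠ y : ℕ in atTop, 2 ≤ Real.log (y : ℝ) ∧
    (A : ℝ) + 4 ≤ Real.log (Real.log (y : ℝ)) := by
  have hlogy : Tendsto (fun y : ℕ => Real.log (y : ℝ)) atTop atTop :=
    Real.tendsto_log_atTop.comp tendsto_natCast_atTop_atTop
  have hll : Tendsto (fun y : ℕ => Real.log (Real.log (y : ℝ))) atTop atTop :=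
    Real.tendsto_log_atTop.comp hlogy
  exact (hlogy.eventually_ge_atTop 2).and (hll.eventually_ge_atTop _)

theorem coprime_primorial (n y : ℕ) :
    n.Coprime (primorial y) ↔ ∀ p : ℕ, p.Prime → p ≤ y → ¬ p ∣ n := by
  unfold primorial
  rw [Nat.coprime_prod_right_iff]
  constructor
  · intro h p hp hpy
    have h1 := h p (mem_filter.2 ⟨mem_range.2 (by omega), hp⟩)
    exact (Nat.Prime.coprime_iff_not_dvd hp).1 h1.symm
  · intro h p hp
    rw [mem_filter, mem_range] at hp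
    exact ((Nat.Prime.coprime_iff_not_dvd hp.2).2 (h p hp.2 (by omega))).symm

open Classical in
theorem kap2 : S_RSV → S_START → S_KAP := by
  intro hR hst A
  obtain ⟨C, hC, y1, hrs⟩ := hR A 2
  obtain ⟨y2, hstart⟩ := hst
  obtain ⟨y4, hy4⟩ := eventually_atTop.1 (ev_big A)
  refine ⟨C, hC, max (max y1 y2) (max y4 3), ?_⟩
  intro y hy h h2 hh hhR
  have k1 : y1 ≤ y := ((le_max_left _ _).trans (le_max_left _ _)).trans hy
  have k2 : y2 ≤ y := ((le_max_right _ _).trans (le_max_left _ _)).trans hy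
  have k4 : y4 ≤ y := ((le_max_left _ _).trans (le_max_right _ _)).trans hy
  have k5 : 3 ≤ y := ((le_max_right _ _).trans (le_max_right _ _)).trans hy
  obtain ⟨g1, g2⟩ := hy4 y k4
  obtain ⟨c0, a1, a2, a3⟩ := hstart y k2 h h2 hh
  obtain ⟨L, hL⟩ : ∃ L : ℝ, L = Real.log y := ⟨_, rfl⟩
  rw [← hL] at g1 g2 a3 hhR
  obtain ⟨l, hl⟩ : ∃ l : ℝ, l = Real.log L := ⟨_, rfl⟩
  rw [← hl] at g2
  have hyr : (3 : ℝ) ≤ y := by exact_mod_cast k5
  have hA0 : (0 : ℝ) ≤ A := Nat.cast_nonneg _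
  have hL0 : 0 < L := by linarith
  have hl0 : 0 < l := by linarith
  have hyL : L ≤ y := by
    rw [hL]
    exact (Real.log_le_sub_one_of_pos (by linarith)).trans (by linarith)
  obtain ⟨H', hH'⟩ : ∃ H', H' = y + h := ⟨_, rfl⟩
  have hyH : y ≤ H' := by omega
  have hHy : (H' : ℝ) ≤ y * L ^ (A + 2) := by
    have e1 : (1 : ℝ) ≤ L ^ A := one_le_pow₀ (by linarith)
    have e2 : (2 : ℝ) ≤ L ^ 2 := by nlinarith
    have e3 : (1 : ℝ) + L ^ A ≤ L ^ (A + 2) := by
      rw [pow_add]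
      nlinarith
    rw [hH']
    push_cast
    nlinarith
  have hc0h : c0 + h ≤ H' := by omega
  -- the exceptional primes
  obtain ⟨S, hS⟩ : ∃ S : Finset ℕ, S = (c0 * (c0 + h)).primeFactors.filter (fun p => p ≤ y) := ⟨_, rfl⟩
  have hpos : 0 < c0 * (c0 + h) := Nat.mul_pos (by omega) (by omega)
  have hSmem : ∀ q, q ∈ S ↔ q.Prime ∧ q ∣ c0 * (c0 + h) ∧ q ≤ y := by
    intro q
    rw [hS, mem_filter, Nat.mem_primeFactors]
    constructor
    · rintro ⟨⟨b1, b2, _⟩, b3⟩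
      exact ⟨b1, b2, b3⟩
    · rintro ⟨b1, b2, b3⟩
      exact ⟨⟨b1, b2, by omega⟩, b3⟩
  have hSbig : ∀ q ∈ S, L ^ 3 < (q : ℝ) := by
    intro q hq
    by_contra hcon
    push Not at hcon
    obtain ⟨b1, b2, b3⟩ := (hSmem q).1 hq
    obtain ⟨b4, b5⟩ := a3 q b1 hcon
    rcases (Nat.Prime.dvd_mul b1).1 b2 with b6 | b6
    · exact b4 b6
    · exact b5 b6
  have hL8 : (8 : ℝ) ≤ L ^ 3 := by
    have : (2 : ℝ) ^ 3 ≤ L ^ 3 := pow_le_pow_left₀ (by norm_num) g1 3
    linarith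
  have hS2 : ∀ q ∈ S, q.Prime ∧ 2 < q := by
    intro q hq
    refine ⟨((hSmem q).1 hq).1, ?_⟩
    have := hSbig q hq
    have h3 : (2 : ℝ) < q := by linarith
    exact_mod_cast h3
  have hSsum : ∑ q ∈ S, (1 : ℝ) / q ≤ 12 / (Real.log y) ^ 2 := by
    rw [← hL]
    have e1 : ∑ q ∈ S, (1 : ℝ) / q ≤ ∑ _q ∈ S, 1 / L ^ 3 := by
      apply Finset.sum_le_sum
      intro q hq
      exact one_div_le_one_div_of_le (by positivity) (hSbig q hq).le
    rw [Finset.sum_const, nsmul_eq_mul] at e1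
    have e2 : (S.card : ℝ) ≤ 12 * L := by
      have f2 := few_primes S (c0 * (c0 + h)) hpos (L ^ 3) (by positivity) (fun q hq =>
        ⟨((hSmem q).1 hq).1, ((hSmem q).1 hq).2.1, hSbig q hq⟩)
      have f3 : Real.log ((c0 * (c0 + h) : ℕ) : ℝ) ≤ (A + 4) * L := by
        have f4 : ((c0 * (c0 + h) : ℕ) : ℝ) ≤ (y : ℝ) ^ (A + 4) := by
          push_cast
          have f5 : (c0 : ℝ) ≤ y := by exact_mod_cast a2
          have f6 : (c0 : ℝ) + h ≤ y ^ (A + 3) := by
            have f7 : (y : ℝ) * L ^ (A + 2) ≤ y * y ^ (A + 2) := by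
              apply mul_le_mul_of_nonneg_left _ (by linarith)
              exact pow_le_pow_left₀ hL0.le hyL _
            have f8 : (c0 : ℝ) + h ≤ H' := by exact_mod_cast hc0h
            have f9 : (y : ℝ) * y ^ (A + 2) = y ^ (A + 3) := by ring
            linarith
          calc (c0 : ℝ) * (c0 + h) ≤ y * y ^ (A + 3) := by
                apply mul_le_mul f5 f6 (by positivity) (by linarith)
            _ = y ^ (A + 4) := by ring
        have f9 := Real.log_le_log (by exact_mod_cast hpos) f4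
        rw [Real.log_pow, ← hL] at f9
        push_cast at f9 ⊢
        exact f9
      rw [Real.log_pow, ← hl] at f2
      have f10 : (S.card : ℝ) * (3 * l) ≤ (A + 4) * L := by
        have := f2.trans f3
        push_cast at this
        exact this
      have f11 : (A + 4) * L ≤ l * L := mul_le_mul_of_nonneg_right g2 hL0.le
      have f12 : l * ((S.card : ℝ) * 3) ≤ l * L := by linarith
      have f13 := le_of_mul_le_mul_left f12 hl0
      have f14 : (0 : ℝ) ≤ S.card := Nat.cast_nonneg _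
      linarith
    calc ∑ q ∈ S, (1 : ℝ) / q ≤ S.card * (1 / L ^ 3) := e1
      _ ≤ 12 * L * (1 / L ^ 3) := mul_le_mul_of_nonneg_right e2 (by positivity)
      _ = 12 / L ^ 2 := by field_simp
  -- the classes of Rankin
  obtain ⟨b, hb1, hb2⟩ := hrs y k1 S 1 hS2 hSsum (Or.inl rfl) H' hyH (by rw [← hL]; exact hHy)
    (fun j : Fin 2 => if j = 0 then c0 else c0 + h) (by
      intro j
      refine ⟨?_, by split_ifs <;> omega⟩
      intro p hp hpy hpS _ hd
      apply hpS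
      rw [hSmem]
      refine ⟨hp, ?_, hpy⟩
      split_ifs at hd
      · exact hd.mul_right _
      · exact hd.mul_left _)
  -- the residue classes
  have hex : ∀ p : ℕ, ∃ r : ℕ, p.Prime → p ≤ y → (p ∉ S → r = b p) ∧ ¬ c0 ≡ r [MOD p] ∧
      ¬ c0 + h ≡ r [MOD p] := by
    intro p
    by_cases hpS : p ∈ S
    · obtain ⟨hp, hp2⟩ := hS2 p hpS
      have e1 : (({c0 % p, (c0 + h) % p} : Finset ℕ)).card < (range p).card := by
        rw [card_range]
        exact lt_of_le_of_lt card_le_two hp2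
      obtain ⟨r, hr1, hr2⟩ := Finset.exists_mem_notMem_of_card_lt_card e1
      refine ⟨r, fun _ _ => ⟨fun h => absurd hpS h, ?_, ?_⟩⟩
      · intro hcon
        apply hr2
        rw [mem_insert]
        left
        have := Nat.mod_eq_of_lt (mem_range.1 hr1)
        unfold Nat.ModEq at hcon
        omega
      · intro hcon
        apply hr2
        rw [mem_insert, mem_singleton]
        right
        have := Nat.mod_eq_of_lt (mem_range.1 hr1)
        unfold Nat.ModEq at hcon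
        omega
    · refine ⟨b p, fun hp hpy => ⟨fun _ => rfl, ?_⟩⟩
      have e1 := (hb1 p hp hpy hpS hp.one_lt.ne').2
      have e2 := e1 0
      have e3 := e1 1
      rw [if_pos rfl] at e2
      rw [if_neg (by decide)] at e3
      exact ⟨e2, e3⟩
  choose rr hrr using hex
  obtain ⟨P, hP⟩ : ∃ P : Finset ℕ, P = (range (y + 1)).filter Nat.Prime := ⟨_, rfl⟩
  have hPmem : ∀ p, p ∈ P ↔ p.Prime ∧ p ≤ y := by
    intro p
    rw [hP, mem_filter, mem_range]
    constructor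
    · rintro ⟨h1, h2⟩
      exact ⟨h2, by omega⟩
    · rintro ⟨h1, h2⟩
      exact ⟨by omega, h1⟩
  obtain ⟨n1, hn1⟩ := Nat.chineseRemainderOfFinset (fun p => p - rr p % p) (fun p => p) P
    (fun p hp => ((hPmem p).1 hp).1.ne_zero)
    (fun p hp q hq hpq => (Nat.coprime_primes ((hPmem p).1 (by simpa using hp)).1
      ((hPmem q).1 (by simpa using hq)).1).2 hpq)
  have hkey : ∀ p : ℕ, p.Prime → p ≤ y → ∀ k : ℕ, p ∣ n1 + k ↔ k ≡ rr p [MOD p] := by
    intro p hp hpy k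
    have h1 := hn1 p ((hPmem p).2 ⟨hp, hpy⟩)
    have hlt := Nat.mod_lt (rr p) hp.pos
    have h3 : n1 + rr p ≡ 0 [MOD p] := by
      have h4 := h1.add_right (rr p)
      refine h4.trans ?_
      rw [Nat.modEq_zero_iff_dvd]
      have h5 : p - rr p % p + rr p = p + (rr p - rr p % p) := by
        have := Nat.mod_le (rr p) p
        omega
      rw [h5]
      exact (Nat.dvd_refl p).add (Nat.dvd_sub_mod _)
    constructor
    · intro hd
      have h4 : n1 + k ≡ n1 + rr p [MOD p] := ((Nat.modEq_zero_iff_dvd).2 hd).trans h3.symm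
      exact Nat.ModEq.add_left_cancel' n1 h4
    · intro hs
      have h4 : n1 + k ≡ n1 + rr p [MOD p] := Nat.ModEq.add_left n1 hs
      exact (Nat.modEq_zero_iff_dvd).1 (h4.trans h3)
  refine ⟨n1 + c0, ?_, ?_, ?_⟩
  · rw [coprime_primorial]
    intro p hp hpy
    rw [hkey p hp hpy]
    exact (hrr p hp hpy).2.1
  · rw [coprime_primorial]
    intro p hp hpy
    rw [add_assoc, hkey p hp hpy]
    exact (hrr p hp hpy).2.2
  · have e1 : ((Ioo 0 h).filter (fun j => (n1 + c0 + j).Coprime (primorial y))).card ≤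
        ((range (H' + 1)).filter (fun k => (∀ j : Fin 2, k ≠ if j = 0 then c0 else c0 + h) ∧
          ∀ p : ℕ, p.Prime → p ≤ y → p ∉ S → p ≠ 1 → ¬ k ≡ b p [MOD p])).card := by
      apply Finset.card_le_card_of_injOn (fun j => c0 + j)
      · intro j hj
        rw [mem_coe, mem_filter, mem_Ioo] at hj
        rw [mem_coe, mem_filter, mem_range]
        beta_reduce
        refine ⟨by omega, fun i => by split_ifs <;> omega, fun p hp hpy hpS _ => ?_⟩
        have f1 := (coprime_primorial _ _).1 hj.2 p hp hpy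
        rw [add_assoc, hkey p hp hpy, (hrr p hp hpy).1 hpS] at f1
        exact f1
      · intro i _ j _ hij
        exact Nat.add_left_cancel hij
    have e2 : (((Ioo 0 h).filter (fun j => (n1 + c0 + j).Coprime (primorial y))).card : ℝ) ≤ _ :=
      (Nat.cast_le.2 e1).trans hb2
    have e3 : (H' : ℝ) = h + y := by
      rw [hH']
      push_cast
      ring
    rw [e3] at e2
    exact e2

end Pool.Agent.J4H73.GQ
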